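import Pool.Agent.H37.CND.Stmts

/-!
# Board `cnd`, row SAM
-/

set_option autoImplicit false

namespace Pool.CND

open Finset

theorem sam_mono (h1 : S_LON) (h2 : S_INJ) {k L : Type} [Field k] [Field L] [Algebra k L]
    (P : Place k L) (g : L ≃ₐ[k] L) (hg : Fixes P g) (hg1 : g ≠ 1) (n : ℕ) (hn : g ^ n ≠ 1) :
    P.b g ≤ P.b (g ^ n) := by
  have hne : g P.pi - P.pi ≠ 0 := by
    intro h
    exact hg1 (h2 k L P g P.pi hg P.pi_ne P.ord_pi (sub_eq_zero.1 h))
  have hne' : (g ^ n) P.pi - P.pi ≠ 0 := by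
    intro h
    exact hn (h2 k L P (g ^ n) P.pi (hg.pow n) P.pi_ne P.ord_pi (sub_eq_zero.1 h))
  have hpi : P.Ge P.pi 1 := Or.inr (by rw [P.ord_pi])
  have hi : 0 ≤ P.b g := by
    have h := (P.ge_sub (hg.ge hpi) hpi).resolve_left hne
    unfold Place.b
    omega
  have key := h1 k L P g P.pi (P.b g) hg P.pi_ne P.ord_pi hi
    (Or.inr (by unfold Place.b; omega))
  have pw : ∀ m : ℕ, P.Ge ((g ^ m) P.pi - P.pi) (P.b g + 1) := by
    intro m
    induction m with
    | zero => exact Or.inl (by rw [pow_zero, AlgEquiv.one_apply, sub_self])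
    | succ m ih =>
      have e1 : (g ^ (m + 1)) P.pi = g ((g ^ m) P.pi) := by
        rw [pow_succ', AlgEquiv.mul_apply]
      have e2 : (g ^ (m + 1)) P.pi - P.pi =
          (g ((g ^ m) P.pi) - (g ^ m) P.pi) + ((g ^ m) P.pi - P.pi) := by
        rw [e1]; ring
      rw [e2]
      refine P.ge_add ?_ ih
      have h0 : (g ^ m) P.pi ≠ 0 := (map_ne_zero_iff _ (g ^ m).injective).2 P.pi_ne
      have h3 := (key ((g ^ m) P.pi)).resolve_right h0
      rw [hg.pow m _ P.pi_ne, P.ord_pi] at h3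
      exact P.ge_mono h3 (by omega)
  have h4 := (pw n).resolve_left hne'
  have h5 : P.b (g ^ n) = P.ord ((g ^ n) P.pi - P.pi) - 1 := rfl
  omega

theorem sam_thm (h1 : S_LON) (h2 : S_INJ) : S_SAM := by
  intro p k L _ _ _ P g a hp hg hgp hg1 ha
  have hcop : Nat.Coprime a p := ((Nat.Prime.coprime_iff_not_dvd hp).2 ha).symm
  obtain ⟨m, hm⟩ : ∃ m : ℕ, a * m % p = 1 := by
    obtain ⟨m, hm⟩ := Nat.exists_mul_mod_eq_one_of_coprime hcop hp.one_lt
    exact ⟨m, hm.2⟩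
  have e1 : (g ^ a) ^ m = g := by
    rw [← pow_mul, pow_eq_pow_mod _ hgp, hm, pow_one]
  have ha1 : g ^ a ≠ 1 := by
    intro h
    rw [h, one_pow] at e1
    exact hg1 e1.symm
  apply le_antisymm
  · have h := sam_mono h1 h2 P (g ^ a) (hg.pow a) ha1 m (by rw [e1]; exact hg1)
    rwa [e1] at h
  · exact sam_mono h1 h2 P g hg hg1 a ha1

end Pool.CND
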